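import Mathlib
import Pool.Agent.H3.GrahamM

set_option autoImplicit false

namespace Pool.Agent.Results.MP_75d27e_nt.NotInjective

open Pool.Agent.H3.GrahamM

theorem result (m : ℕ) (hm : 2 ≤ m) (hc : ¬ m.Prime) :
    (∀ n : ℕ, (Ends m n).Nonempty) ∧ ¬ Function.Injective (g m) := by
  refine ⟨ends_nonempty m hm, ?_⟩
  obtain ⟨d, hd, h2, hlt⟩ := Nat.exists_dvd_of_not_prime2 hm hc
  obtain ⟨k, rfl⟩ := hd
  refine not_inj d k h2 ?_
  by_contra hk
  have : k = 0 ∨ k = 1 := by omega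
  rcases this with rfl | rfl <;> omega

end Pool.Agent.Results.MP_75d27e_nt.NotInjective
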